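import Pool.Agent.R884.Lip.Ex

set_option autoImplicit false

/-!
# A bijective symbol with a hypercyclic composition operator on a little Lipschitz space

There are a locally finite rooted tree `T` (with vertex set `ℕ × ℕ`, and in which every vertex has
a child) and a bijection `φ : T → T` such that `C_φ` is a composition operator on the little
Lipschitz space `L₀(T)` and `lam • C_φ` is hypercyclic whenever `1/2 < |lam| < 1`. In particular
`T \ φ(T)` is empty, so it need not be infinite when `lam • C_φ` is hypercyclic with `|lam| ≤ 1`.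

The definitions `RTree`, `IsLittle`, `nrm`, `IsCompOp`, `IsHypVec` are in
`Pool.Agent.R884.Lip.Defs`.
-/

namespace Pool.Agent.Results.MP_2744a5_an.BijectiveSymbol

open Pool.Agent.R884.Lip

/-- **Main theorem.** There are a rooted tree and a bijective symbol `φ` for which
`lam • C_φ` is hypercyclic on the little Lipschitz space for all `1/2 < |lam| < 1`. -/
theorem result : ∃ (R : RTree (ℕ × ℕ)) (φ : ℕ × ℕ → ℕ × ℕ), Function.Bijective φ ∧
    IsCompOp R φ ∧ ∀ lam : ℂ, 1 / 2 < ‖lam‖ → ‖lam‖ < 1 → ∃ f, IsHypVec R φ lam f :=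
  ⟨Ex.tree, Ex.phi, ⟨Ex.phi_inj, Ex.phi_surj⟩, Ex.isComp, fun _ h1 h2 => Ex.main_ex h1 h2⟩

end Pool.Agent.Results.MP_2744a5_an.BijectiveSymbol
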